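import Pool.Agent.Run7.h776.MM.Third

/-! # Classes of invariant measures -/

set_option autoImplicit false

namespace Pool.Agent.Run7.h776.MM

open MeasureTheory Finset Filter Topology
open Pool.Agent.Run7.h776.MS
open scoped Real

lemma harm (M : ℕ) : ∑ j ∈ Icc 1 M, 1 / (j : ℝ) ≤ 1 + Real.log M := by
  have h := harmonic_le_one_add_log M
  refine le_trans (le_of_eq ?_) h
  unfold harmonic
  push_cast
  clear h
  induction M with
  | zero => simp
  | succ k ih =>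
    rw [Finset.sum_Icc_succ_top (by omega), ih, sum_range_succ]
    push_cast
    rw [one_div]

/-- the choice of the parameter -/
lemma choose_M {C : ℝ} (hC : 0 < C) (B : ℝ) (hB : 0 ≤ B) (A : ℕ) {δ : ℝ} (h0 : 0 < δ) (h1 : δ ≤ 1)
    {X : ℝ} (hX : ∀ M : ℕ, 2 ≤ M → X ≤ C / Real.log M ^ A + B * δ * (1 + Real.log M)) :
    X ≤ (C + 3 * B) * δ ^ (1 - 1 / ((A : ℝ) + 1)) := by
  set s : ℝ := 1 / ((A : ℝ) + 1) with hs
  have hA1 : (0 : ℝ) < (A : ℝ) + 1 := by positivity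
  have hs0 : 0 < s := by positivity
  set L : ℝ := δ ^ (-s) with hL
  have hL1 : 1 ≤ L := Real.one_le_rpow_of_pos_of_le_one_of_nonpos h0 h1 (by linarith)
  set M : ℕ := ⌈Real.exp L⌉₊ with hM
  have hexp : Real.exp 1 ≤ Real.exp L := Real.exp_le_exp.2 hL1
  have he : (2 : ℝ) < Real.exp 1 := by linarith [Real.exp_one_gt_d9]
  have hMle : Real.exp L ≤ M := Nat.le_ceil _
  have hM2 : 2 ≤ M := by
    have : (2 : ℝ) ≤ M := by linarith
    exact_mod_cast this
  have hlog1 : L ≤ Real.log M := by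
    rw [Real.le_log_iff_exp_le (by linarith)]
    exact hMle
  have hlog2 : Real.log M ≤ L + 1 := by
    have h2 : (M : ℝ) ≤ Real.exp (L + 1) := by
      have h3 := Nat.ceil_lt_add_one (Real.exp_pos L).le
      rw [← hM] at h3
      rw [Real.exp_add]
      nlinarith [Real.exp_pos L]
    calc Real.log M ≤ Real.log (Real.exp (L + 1)) := Real.log_le_log (by linarith) h2
      _ = L + 1 := Real.log_exp _
  refine (hX M hM2).trans ?_
  have e1 : C / Real.log M ^ A ≤ C * δ ^ (1 - s) := by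
    have h2 : L ^ A ≤ Real.log M ^ A := pow_le_pow_left₀ (by linarith) hlog1 _
    have h3 : L ^ A = (δ ^ (1 - s))⁻¹ := by
      rw [hL, ← Real.rpow_natCast, ← Real.rpow_mul h0.le, ← Real.rpow_neg h0.le]
      congr 1
      rw [hs]
      field_simp
      ring
    calc C / Real.log M ^ A ≤ C / L ^ A :=
          div_le_div_of_nonneg_left hC.le (by positivity) h2
      _ = C * δ ^ (1 - s) := by rw [h3, div_inv_eq_mul]
  have e2 : B * δ * (1 + Real.log M) ≤ 3 * B * δ ^ (1 - s) := by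
    have h2 : δ * L = δ ^ (1 - s) := by
      rw [hL, sub_eq_add_neg, Real.rpow_add h0, Real.rpow_one]
    have h3 : 1 + Real.log M ≤ 3 * L := by linarith
    calc B * δ * (1 + Real.log M) ≤ B * δ * (3 * L) :=
          mul_le_mul_of_nonneg_left h3 (by positivity)
      _ = 3 * B * (δ * L) := by ring
      _ = _ := by rw [h2]
  calc _ ≤ C * δ ^ (1 - s) + 3 * B * δ ^ (1 - s) := add_le_add e1 e2
    _ = _ := by ring

/-- atomless probability measures which are invariant under the multiplications by the elements of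
`Γ` -/
def Inv (Γ : Set ℕ) (μ : Measure UnitAddCircle) : Prop :=
  IsProbabilityMeasure μ ∧ (∀ x, μ {x} = 0) ∧
    ∀ n ∈ Γ, MeasurePreserving (fun x : UnitAddCircle => n • x) μ μ

lemma Inv.map {Γ : Set ℕ} {μ : Measure UnitAddCircle} (h : Inv Γ μ) {m : ℤ} (hm : m ≠ 0) :
    Inv Γ (μ.map fun x => m • x) := by
  obtain ⟨h1, h2, h3⟩ := h
  have hmeas := measurable_zsmul_circle m
  have hns : NullSingletonClass μ := ⟨h2⟩
  refine ⟨Measure.isProbabilityMeasure_map hmeas.aemeasurable, fun x => ?_, fun n hn => ?_⟩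
  · rw [Measure.map_apply hmeas (measurableSet_singleton x)]
    exact fibre_null μ hm x
  · have hn' := h3 n hn
    refine ⟨(continuous_nsmul n).measurable, ?_⟩
    rw [Measure.map_map (continuous_nsmul n).measurable hmeas]
    have e : (fun x : UnitAddCircle => n • x) ∘ (fun x : UnitAddCircle => m • x) =
        (fun x : UnitAddCircle => m • x) ∘ (fun x : UnitAddCircle => n • x) := by
      funext x
      exact smul_comm _ _ _
    rw [e, ← Measure.map_map hmeas (continuous_nsmul n).measurable, hn'.map_eq]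

lemma integral_map_one (μ : Measure UnitAddCircle) (n : ℤ) :
    ∫ x, (fourier 1 x : ℂ) ∂(μ.map fun x => n • x) = ∫ x, (fourier n x : ℂ) ∂μ := by
  rw [integral_map (measurable_zsmul_circle n).aemeasurable
    (fourier 1).continuous.aestronglyMeasurable]
  refine integral_congr_ae (Eventually.of_forall fun x => ?_)
  show (fourier 1 (n • x) : ℂ) = fourier n x
  rw [fourier_apply, fourier_apply, one_smul]

lemma small_of_mdev {b : ℕ} (hb : 3 ≤ b) (A : ℕ) : ∃ C : ℝ, 0 < C ∧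
    ∀ (μ : Measure UnitAddCircle) [IsProbabilityMeasure μ] (δ : ℝ), 0 < δ → δ ≤ 1 →
      (∀ j : ℕ, 1 ≤ j → mdev b μ j ≤ 4 * δ) →
      ‖∫ x, (fourier 1 x : ℂ) ∂μ‖ ≤ C * δ ^ (1 - 1 / ((A : ℝ) + 1)) := by
  obtain ⟨C, hC, h⟩ := meas_ineq hb A
  refine ⟨C + 3 * (16 * b), by positivity, fun μ hμ δ h0 h1 hd => ?_⟩
  refine choose_M hC (16 * b) (by positivity) A h0 h1 fun M hM => ?_
  refine (h μ M hM).trans ?_
  have h2 : ∑ j ∈ Icc 1 M, 1 / (j : ℝ) * mdev b μ j ≤ 4 * δ * (1 + Real.log M) := by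
    calc ∑ j ∈ Icc 1 M, 1 / (j : ℝ) * mdev b μ j ≤ ∑ j ∈ Icc 1 M, 1 / (j : ℝ) * (4 * δ) := by
          refine sum_le_sum fun j hj => ?_
          rw [mem_Icc] at hj
          exact mul_le_mul_of_nonneg_left (hd j hj.1) (by positivity)
      _ = 4 * δ * ∑ j ∈ Icc 1 M, 1 / (j : ℝ) := by rw [← sum_mul, mul_comm]
      _ ≤ 4 * δ * (1 + Real.log M) := mul_le_mul_of_nonneg_left (harm M) (by positivity)
  have h3 : (4 * (b : ℝ)) * ∑ j ∈ Icc 1 M, 1 / (j : ℝ) * mdev b μ j ≤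
      4 * b * (4 * δ * (1 + Real.log M)) := mul_le_mul_of_nonneg_left h2 (by positivity)
  have h4 : 4 * (b : ℝ) * (4 * δ * (1 + Real.log M)) = 16 * b * δ * (1 + Real.log M) := by ring
  linarith

/-- thirds -/
theorem third_bound (ε : ℝ) (hε : 0 < ε) : ∃ C : ℝ, 0 < C ∧
    ∀ (Γ : Set ℕ) (δ : ℝ), 0 < δ → δ ≤ 1 →
      (∀ μ, Inv Γ μ → |μ.real (arc 0 (1 / 3)) - 1 / 3| ≤ δ) →
      ∀ μ, Inv Γ μ → ∀ n : ℤ, n ≠ 0 → ‖∫ x, (fourier n x : ℂ) ∂μ‖ ≤ C * δ ^ (1 - ε) := by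
  obtain ⟨A, hA⟩ := exists_nat_gt (1 / ε)
  obtain ⟨C, hC, h⟩ := small_of_mdev (b := 3) le_rfl A
  refine ⟨C, hC, fun Γ δ h0 h1 hall μ hμ n hn => ?_⟩
  have hν := hμ.map hn
  have := hν.1
  have hns : NullSingletonClass (μ.map fun x => n • x) := ⟨hν.2.1⟩
  rw [← integral_map_one]
  have h2 := h (μ.map fun x => n • x) δ h0 h1 (fun j hj => ?_)
  · refine h2.trans (mul_le_mul_of_nonneg_left ?_ hC.le)
    apply Real.rpow_le_rpow_of_exponent_ge h0 h1
    have h3 : 1 / ((A : ℝ) + 1) ≤ ε := by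
      rw [div_le_iff₀ (by positivity)]
      rw [div_lt_iff₀ hε] at hA
      nlinarith
    linarith
  · have hj0 : (j : ℤ) ≠ 0 := by
      have : j ≠ 0 := by omega
      exact_mod_cast this
    apply mdev_three _ hj
    · have h3 := hall _ (hν.map hj0)
      rwa [mass_map _ _ le_rfl (by norm_num)] at h3
    · have h3 := hall _ (hν.map (neg_ne_zero.2 hj0))
      rwa [mass_map _ _ le_rfl (by norm_num)] at h3

/-- quarters -/
theorem quarter_bound (ε : ℝ) (hε : 0 < ε) : ∃ C : ℝ, 0 < C ∧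
    ∀ (Γ : Set ℕ) (δ : ℝ), 2 ∈ Γ → 0 < δ → δ ≤ 1 →
      (∀ μ, Inv Γ μ → |μ.real (arc 0 (1 / 4)) - 1 / 4| ≤ δ) →
      ∀ μ, Inv Γ μ → ∀ n : ℤ, n ≠ 0 → ‖∫ x, (fourier n x : ℂ) ∂μ‖ ≤ C * δ ^ (1 - ε) := by
  obtain ⟨A, hA⟩ := exists_nat_gt (1 / ε)
  obtain ⟨C, hC, h⟩ := small_of_mdev (b := 4) (by norm_num) A
  refine ⟨C, hC, fun Γ δ h2Γ h0 h1 hall μ hμ n hn => ?_⟩
  have hν := hμ.map hn
  have := hν.1
  have hns : NullSingletonClass (μ.map fun x => n • x) := ⟨hν.2.1⟩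
  rw [← integral_map_one]
  have h2 := h (μ.map fun x => n • x) δ h0 h1 (fun j hj => ?_)
  · refine h2.trans (mul_le_mul_of_nonneg_left ?_ hC.le)
    apply Real.rpow_le_rpow_of_exponent_ge h0 h1
    have h3 : 1 / ((A : ℝ) + 1) ≤ ε := by
      rw [div_le_iff₀ (by positivity)]
      rw [div_lt_iff₀ hε] at hA
      nlinarith
    linarith
  · have hj0 : (j : ℤ) ≠ 0 := by
      have : j ≠ 0 := by omega
      exact_mod_cast this
    apply mdev_four _ (hν.2.2 2 h2Γ) hj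
    · have h3 := hall _ (hν.map hj0)
      rwa [mass_map _ _ le_rfl (by norm_num)] at h3
    · have h3 := hall _ (hν.map (neg_ne_zero.2 hj0))
      rwa [mass_map _ _ le_rfl (by norm_num)] at h3

lemma volume_arc {t : ℝ} (h0 : 0 ≤ t) (h1 : t ≤ 1) :
    (volume : Measure UnitAddCircle).real (arc 0 t) = t := by
  have hm : MeasurableSet (arc 0 t) := measurableSet_arc le_rfl h1
  have h := (UnitAddCircle.measurePreserving_mk 0).measure_preimage hm.nullMeasurableSet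
  rw [zero_add, ← Measure.restrict_congr_set (Ico_ae_eq_Ioc (μ := volume) (a := (0 : ℝ)) (b := 1)),
    Measure.restrict_apply' measurableSet_Ico] at h
  have h2 : ((fun y : ℝ => (y : UnitAddCircle)) ⁻¹' arc 0 t) ∩ Set.Ico 0 1 = Set.Ico 0 t := by
    ext y
    constructor
    · rintro ⟨h3, h4⟩
      have h5 := (mem_arc le_rfl h1 y).1 h3
      rw [Int.fract_eq_self.2 h4] at h5
      exact h5
    · rintro ⟨h3, h4⟩
      have h6 : y ∈ Set.Ico (0 : ℝ) 1 := ⟨h3, by linarith⟩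
      refine ⟨(mem_arc le_rfl h1 y).2 ?_, h6⟩
      rw [Int.fract_eq_self.2 h6]
      exact ⟨h3, h4⟩
  rw [h2, Real.volume_Ico, sub_zero] at h
  rw [measureReal_def, ← h, ENNReal.toReal_ofReal h0]

lemma eq_volume_of_small {μ : Measure UnitAddCircle} (hμ : IsProbabilityMeasure μ) {C : ℝ}
    (h : ∀ δ : ℝ, 0 < δ → δ ≤ 1 → ∀ n : ℤ, n ≠ 0 →
      ‖∫ x, (fourier n x : ℂ) ∂μ‖ ≤ C * δ ^ (1 - (1 / 2 : ℝ))) : μ = volume := by
  apply Pool.Agent.W764.FB.eq_volume
  intro n hn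
  rw [← norm_le_zero_iff]
  have h1 : Tendsto (fun δ : ℝ => C * δ ^ (1 - (1 / 2 : ℝ))) (𝓝[>] 0) (𝓝 (C * 0 ^ (1 - (1 / 2 : ℝ)))) := by
    apply Tendsto.const_mul
    have h2 : ContinuousAt (fun δ : ℝ => δ ^ (1 - (1 / 2 : ℝ))) 0 :=
      Real.continuousAt_rpow_const 0 _ (Or.inr (by norm_num))
    exact h2.tendsto.mono_left nhdsWithin_le_nhds
  rw [Real.zero_rpow (by norm_num), mul_zero] at h1
  refine ge_of_tendsto h1 ?_
  have h3 : Set.Ioc (0 : ℝ) 1 ∈ 𝓝[>] (0 : ℝ) := Ioc_mem_nhdsGT zero_lt_one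
  filter_upwards [h3] with δ hδ
  exact h δ hδ.1 hδ.2 n hn

end Pool.Agent.Run7.h776.MM
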