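import Pool.Agent.Run7.h776.MS.Step
import Pool.Agent.W764.FB.Ext

/-! # Measures on the circle and the masses of intervals under dilations -/

set_option autoImplicit false

namespace Pool.Agent.Run7.h776.MM

open MeasureTheory Finset
open Pool.Agent.Run7.h776.MS
open Pool.Agent.H807R2.Dav (ee norm_ee ee_add ee_zero ee_int ee_add_int)
open scoped Real

/-- the representative in `[0, 1)` -/
noncomputable def rep (x : UnitAddCircle) : ℝ := (AddCircle.equivIco (1 : ℝ) 0 x : ℝ)

lemma rep_coe (x : UnitAddCircle) : ((rep x : ℝ) : UnitAddCircle) = x := by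
  unfold rep
  exact AddCircle.coe_equivIco

lemma measurable_rep : Measurable rep :=
  measurable_subtype_coe.comp (AddCircle.measurableEquivIco (1 : ℝ) 0).measurable

/-- the arc `[s, t)` -/
def arc (s t : ℝ) : Set UnitAddCircle := (fun y : ℝ => (y : UnitAddCircle)) '' Set.Ico s t

lemma coe_fract (y : ℝ) : ((Int.fract y : ℝ) : UnitAddCircle) = (y : UnitAddCircle) := by
  have h : y = Int.fract y + (⌊y⌋ : ℝ) := (Int.fract_add_floor y).symm
  conv_rhs => rw [h]
  rw [AddCircle.coe_add]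
  have h2 : (((⌊y⌋ : ℤ) : ℝ) : UnitAddCircle) = 0 := by
    rw [AddCircle.coe_eq_zero_iff]
    exact ⟨⌊y⌋, by simp⟩
  rw [h2, add_zero]

lemma mem_arc {s t : ℝ} (hs : 0 ≤ s) (ht : t ≤ 1) (y : ℝ) :
    (y : UnitAddCircle) ∈ arc s t ↔ s ≤ Int.fract y ∧ Int.fract y < t := by
  constructor
  · rintro ⟨z, ⟨h1, h2⟩, h3⟩
    have h4 : ((z : ℝ) : UnitAddCircle) = ((Int.fract y : ℝ) : UnitAddCircle) := by
      rw [coe_fract]; exact h3
    have h5 : z = Int.fract y := by
      have hz : z ∈ Set.Ico (0 : ℝ) (0 + 1) := ⟨by linarith, by linarith⟩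
      have hy : Int.fract y ∈ Set.Ico (0 : ℝ) (0 + 1) :=
        ⟨Int.fract_nonneg y, by rw [zero_add]; exact Int.fract_lt_one y⟩
      exact (AddCircle.coe_eq_coe_iff_of_mem_Ico hz hy).1 h4
    rw [← h5]
    exact ⟨h1, h2⟩
  · rintro ⟨h1, h2⟩
    exact ⟨Int.fract y, ⟨h1, h2⟩, coe_fract y⟩

lemma coe_mul_rep (j : ℕ) (x : UnitAddCircle) : ((j * rep x : ℝ) : UnitAddCircle) = j • x := by
  have h : (j : ℝ) * rep x = j • rep x := by rw [nsmul_eq_mul]
  rw [h, AddCircle.coe_nsmul, rep_coe]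

lemma dig_iff {b : ℕ} (hb : 0 < b) (j : ℕ) (x : UnitAddCircle) {d : ℕ} (hd : d < b) :
    dig b (j * rep x) = d ↔ j • x ∈ arc ((d : ℝ) / b) (((d : ℝ) + 1) / b) := by
  have hbr : (0 : ℝ) < b := by exact_mod_cast hb
  rw [dig_eq_iff hb, ← coe_mul_rep, mem_arc (by positivity)]
  rw [div_le_one hbr]
  exact_mod_cast hd

lemma measurableSet_dig {b : ℕ} (hb : 0 < b) (j d : ℕ) :
    MeasurableSet {x : UnitAddCircle | dig b (j * rep x) = d} := by
  have hf : Measurable fun x : UnitAddCircle => Int.fract ((j : ℝ) * rep x) :=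
    measurable_fract.comp (measurable_rep.const_mul _)
  have : {x : UnitAddCircle | dig b (j * rep x) = d} =
      {x | (d : ℝ) / b ≤ Int.fract ((j : ℝ) * rep x)} ∩
        {x | Int.fract ((j : ℝ) * rep x) < ((d : ℝ) + 1) / b} := by
    ext x
    exact dig_eq_iff hb _ _
  rw [this]
  exact (measurableSet_le measurable_const hf).inter (measurableSet_lt hf measurable_const)

section

variable {b : ℕ} {g : ℕ → ℂ}

lemma EE_indicator (hb : 0 < b) (hg : PG b g) (j : ℕ) (x : UnitAddCircle) :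
    EE b g (j * rep x) = ∑ d ∈ range b,
      {x : UnitAddCircle | dig b (j * rep x) = d}.indicator (fun _ => EE b g ((d : ℝ) / b)) x := by
  rw [EE_step hb hg, sum_eq_single (dig b (j * rep x))]
  · rw [Set.indicator_of_mem]
    rfl
  · intro d _ hd
    rw [Set.indicator_of_notMem]
    exact fun h => hd h.symm
  · intro h
    exact absurd (mem_range.2 (dig_lt hb _)) h

lemma integrable_EE (hb : 0 < b) (hg : PG b g) (μ : Measure UnitAddCircle) [IsProbabilityMeasure μ]
    (j : ℕ) : Integrable (fun x => EE b g (j * rep x)) μ := by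
  simp_rw [EE_indicator hb hg]
  refine integrable_finsetSum _ fun d _ => ?_
  exact (integrable_const _).indicator (measurableSet_dig hb j d)

lemma integral_EE (hb : 0 < b) (hg : PG b g) (μ : Measure UnitAddCircle) [IsProbabilityMeasure μ]
    (j : ℕ) : ∫ x, EE b g (j * rep x) ∂μ = ∑ d ∈ range b,
      ((μ.real {x : UnitAddCircle | j • x ∈ arc ((d : ℝ) / b) (((d : ℝ) + 1) / b)} : ℝ) : ℂ) *
        EE b g ((d : ℝ) / b) := by
  simp_rw [EE_indicator hb hg]
  rw [integral_finsetSum]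
  · refine sum_congr rfl fun d hd => ?_
    rw [integral_indicator (measurableSet_dig hb j d), setIntegral_const]
    rw [Complex.real_smul]
    congr 2
    congr 1
    ext x
    exact dig_iff hb j x (mem_range.1 hd)
  · intro d _
    exact (integrable_const _).indicator (measurableSet_dig hb j d)

/-- the deviations of the masses -/
noncomputable def mdev (b : ℕ) (μ : Measure UnitAddCircle) (j : ℕ) : ℝ :=
  ∑ d ∈ range b, |μ.real {x : UnitAddCircle | j • x ∈ arc ((d : ℝ) / b) (((d : ℝ) + 1) / b)} - 1 / b|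

lemma norm_integral_EE (hb : 0 < b) (hg : PG b g) (μ : Measure UnitAddCircle)
    [IsProbabilityMeasure μ] (j : ℕ) : ‖∫ x, EE b g (j * rep x) ∂μ‖ ≤ 2 * b * mdev b μ j := by
  have h1 : ∫ x, EE b g (j * rep x) ∂μ = ∑ d ∈ range b,
      ((μ.real {x : UnitAddCircle | j • x ∈ arc ((d : ℝ) / b) (((d : ℝ) + 1) / b)} - 1 / b : ℝ) : ℂ) *
        EE b g ((d : ℝ) / b) := by
    rw [integral_EE hb hg]
    have h3 : ∑ d ∈ range b, (1 / (b : ℂ)) * EE b g ((d : ℝ) / b) = 0 := by
      rw [← mul_sum, EE_sum hb hg, mul_zero]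
    rw [← sub_zero (∑ d ∈ range b, _), ← h3, ← sum_sub_distrib]
    refine sum_congr rfl fun d _ => ?_
    push_cast
    ring
  rw [h1]
  refine (norm_sum_le _ _).trans ?_
  unfold mdev
  rw [mul_sum]
  refine sum_le_sum fun d _ => ?_
  rw [norm_mul, Complex.norm_real, Real.norm_eq_abs, mul_comm]
  exact mul_le_mul_of_nonneg_right (EE_norm hb hg _) (abs_nonneg _)

lemma integrable_DD (hb : 0 < b) (hg : PG b g) (μ : Measure UnitAddCircle) [IsProbabilityMeasure μ]
    (M : ℕ) : Integrable (fun x => DD b g M (rep x)) μ := by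
  unfold DD
  exact integrable_finsetSum _ fun j _ => (integrable_EE hb hg μ j).const_mul _

lemma norm_integral_DD (hb : 0 < b) (hg : PG b g) (μ : Measure UnitAddCircle)
    [IsProbabilityMeasure μ] (M : ℕ) : ‖∫ x, DD b g M (rep x) ∂μ‖ ≤
      2 * b * ∑ j ∈ Icc 1 M, 1 / (j : ℝ) * mdev b μ j := by
  unfold DD
  rw [integral_finsetSum _ fun j _ => (integrable_EE hb hg μ j).const_mul _, mul_sum]
  refine (norm_sum_le _ _).trans (sum_le_sum fun j hj => ?_)
  rw [integral_const_mul, norm_mul]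
  rw [mem_Icc] at hj
  have hj0 : (0 : ℝ) < j := by exact_mod_cast hj.1
  have h1 : ‖mu j * g j / j‖ ≤ 1 / j := by
    rw [norm_div, Complex.norm_natCast, norm_mul]
    exact div_le_div_of_nonneg_right (mul_le_one₀ (mu_norm j) (norm_nonneg _) (hg.norm j)) hj0.le
  calc _ ≤ 1 / (j : ℝ) * (2 * b * mdev b μ j) :=
        mul_le_mul h1 (norm_integral_EE hb hg μ j) (norm_nonneg _) (by positivity)
    _ = _ := by ring

end

lemma fourier_one (x : UnitAddCircle) : (fourier 1 x : ℂ) = ee (rep x) := by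
  conv_lhs => rw [← rep_coe x]
  rw [fourier_coe_apply]
  unfold ee
  congr 1
  push_cast
  ring

lemma integrable_ee (μ : Measure UnitAddCircle) [IsProbabilityMeasure μ] (s : ℝ) :
    Integrable (fun x => ee (s * rep x)) μ := by
  refine Integrable.of_bound (C := 1) ?_ (Filter.Eventually.of_forall fun x => (norm_ee _).le)
  apply Measurable.aestronglyMeasurable
  unfold ee
  have h : Measurable fun x : UnitAddCircle => ((s * rep x : ℝ) : ℂ) :=
    Complex.measurable_ofReal.comp (measurable_rep.const_mul _)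
  exact Complex.measurable_exp.comp (h.const_mul _)

lemma lin {μ : Measure UnitAddCircle} {E1 E2 D1 D2 : UnitAddCircle → ℂ} (h1 : Integrable E1 μ)
    (h2 : Integrable E2 μ) (h3 : Integrable D1 μ) (h4 : Integrable D2 μ) (c : ℂ) :
    ∫ x, (c * (E1 x + E2 x) + c * (D1 x + D2 x)) ∂μ =
      c * (∫ x, E1 x ∂μ + ∫ x, E2 x ∂μ) + c * (∫ x, D1 x ∂μ + ∫ x, D2 x ∂μ) := by
  have a : Integrable (fun x => E1 x + E2 x) μ := h1.add h2
  have b : Integrable (fun x => D1 x + D2 x) μ := h3.add h4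
  rw [integral_add (a.const_mul c) (b.const_mul c), integral_const_mul, integral_const_mul,
    integral_add h1 h2, integral_add h3 h4]

/-- **The inequality for measures.** -/
theorem meas_ineq {b : ℕ} (hb : 3 ≤ b) (A : ℕ) : ∃ C : ℝ, 0 < C ∧
    ∀ (μ : Measure UnitAddCircle) [IsProbabilityMeasure μ] (M : ℕ), 2 ≤ M →
      ‖∫ x, (fourier 1 x : ℂ) ∂μ‖ ≤
        C / Real.log M ^ A + 4 * b * ∑ j ∈ Icc 1 M, 1 / (j : ℝ) * mdev b μ j := by
  have hb0 : 0 < b := by omega
  obtain ⟨χ, hχ⟩ := odd_char hb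
  set g1 : ℕ → ℂ := fun n => χ (n : ZMod b) with hg1
  set g2 : ℕ → ℂ := fun n => (1 : DirichletCharacter ℂ b) (n : ZMod b) with hg2
  have P1 : PG b g1 := PG_char (by omega) χ
  have P2 : PG b g2 := PG_char (by omega) 1
  have v1 : g1 (b - 1) = -1 := by
    rw [hg1]
    simp only
    rw [cast_pred (by omega), hχ]
  have v2 : g2 (b - 1) = 1 := by
    rw [hg2]
    simp only
    rw [cast_pred (by omega)]
    apply MulChar.one_apply
    exact isUnit_one.neg
  obtain ⟨C1, hC1, h1⟩ := approx hb0 P1 A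
  obtain ⟨C2, hC2, h2⟩ := approx hb0 P2 A
  refine ⟨C1 + C2, by positivity, fun μ hμ M hM => ?_⟩
  have hL0 : 0 < Real.log M := Real.log_pos (by exact_mod_cast (by omega : 1 < M))
  have h3 : ∀ y : ℝ, ee y = Complex.I * (((ee y - g1 (b - 1) * ee (-y)) / (2 * Complex.I) -
      DD b g1 M y) + ((ee y - g2 (b - 1) * ee (-y)) / (2 * Complex.I) - DD b g2 M y)) +
      Complex.I * (DD b g1 M y + DD b g2 M y) := by
    intro y
    rw [v1, v2]
    have hI : Complex.I ≠ 0 := Complex.I_ne_zero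
    field_simp
    ring
  have i1 : Integrable (fun x => ee (rep x)) μ := by
    have := integrable_ee μ 1
    simpa using this
  have i2 : Integrable (fun x => ee (-(rep x))) μ := by
    have := integrable_ee μ (-1)
    simpa using this
  have e1 : Integrable (fun x => (ee (rep x) - g1 (b - 1) * ee (-(rep x))) / (2 * Complex.I) -
      DD b g1 M (rep x)) μ := ((i1.sub (i2.const_mul _)).div_const _).sub (integrable_DD hb0 P1 μ M)
  have e2 : Integrable (fun x => (ee (rep x) - g2 (b - 1) * ee (-(rep x))) / (2 * Complex.I) -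
      DD b g2 M (rep x)) μ := ((i1.sub (i2.const_mul _)).div_const _).sub (integrable_DD hb0 P2 μ M)
  have h4 : ∫ x, (fourier 1 x : ℂ) ∂μ =
      Complex.I * (∫ x, ((ee (rep x) - g1 (b - 1) * ee (-(rep x))) / (2 * Complex.I) -
      DD b g1 M (rep x)) ∂μ + ∫ x, ((ee (rep x) - g2 (b - 1) * ee (-(rep x))) / (2 * Complex.I) -
      DD b g2 M (rep x)) ∂μ) + Complex.I * (∫ x, DD b g1 M (rep x) ∂μ + ∫ x, DD b g2 M (rep x) ∂μ) := by
    have c1 : ∫ x, (fourier 1 x : ℂ) ∂μ = ∫ x, (Complex.I * (((ee (rep x) -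
        g1 (b - 1) * ee (-(rep x))) / (2 * Complex.I) - DD b g1 M (rep x)) + ((ee (rep x) -
        g2 (b - 1) * ee (-(rep x))) / (2 * Complex.I) - DD b g2 M (rep x))) +
        Complex.I * (DD b g1 M (rep x) + DD b g2 M (rep x))) ∂μ := by
      refine integral_congr_ae (Filter.Eventually.of_forall fun x => ?_)
      show (fourier 1 x : ℂ) = _
      rw [fourier_one]
      exact h3 (rep x)
    rw [c1]
    exact lin e1 e2 (integrable_DD hb0 P1 μ M) (integrable_DD hb0 P2 μ M) Complex.I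
  have h5 : ‖∫ x, ((ee (rep x) - g1 (b - 1) * ee (-(rep x))) / (2 * Complex.I) -
      DD b g1 M (rep x)) ∂μ‖ ≤ C1 / Real.log M ^ A := by
    have := norm_integral_le_of_norm_le_const (μ := μ) (C := C1 / Real.log M ^ A)
      (Filter.Eventually.of_forall fun x => h1 M hM (rep x))
    simpa using this
  have h6 : ‖∫ x, ((ee (rep x) - g2 (b - 1) * ee (-(rep x))) / (2 * Complex.I) -
      DD b g2 M (rep x)) ∂μ‖ ≤ C2 / Real.log M ^ A := by
    have := norm_integral_le_of_norm_le_const (μ := μ) (C := C2 / Real.log M ^ A)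
      (Filter.Eventually.of_forall fun x => h2 M hM (rep x))
    simpa using this
  have h7 := norm_integral_DD hb0 P1 μ M
  have h8 := norm_integral_DD hb0 P2 μ M
  rw [h4]
  refine (norm_add_le _ _).trans ?_
  rw [norm_mul, norm_mul, Complex.norm_I, one_mul, one_mul]
  have h9 := norm_add_le (∫ x, ((ee (rep x) - g1 (b - 1) * ee (-(rep x))) / (2 * Complex.I) -
      DD b g1 M (rep x)) ∂μ) (∫ x, ((ee (rep x) - g2 (b - 1) * ee (-(rep x))) / (2 * Complex.I) -
      DD b g2 M (rep x)) ∂μ)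
  have h10 := norm_add_le (∫ x, DD b g1 M (rep x) ∂μ) (∫ x, DD b g2 M (rep x) ∂μ)
  have h11 : (C1 + C2) / Real.log M ^ A = C1 / Real.log M ^ A + C2 / Real.log M ^ A := by ring
  rw [h11]
  linarith

end Pool.Agent.Run7.h776.MM
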