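import Pool.Agent.Run7.h776.MM.Main

/-! # A single measure -/

set_option autoImplicit false

namespace Pool.Agent.Run7.h776.MM

open MeasureTheory Finset Filter Topology
open Pool.Agent.Run7.h776.MS
open scoped Real

/-- thirds, one measure -/
theorem single_bound (ε : ℝ) (hε : 0 < ε) : ∃ C : ℝ, 0 < C ∧
    ∀ μ : Measure UnitAddCircle, IsProbabilityMeasure μ → (∀ x, μ {x} = 0) →
      ∀ δ : ℝ, 0 < δ → δ ≤ 1 → ∀ n : ℤ, n ≠ 0 →
        (∀ j : ℤ, j ≠ 0 → |μ.real {x : UnitAddCircle | (j * n) • x ∈ arc 0 (1 / 3)} - 1 / 3| ≤ δ) →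
        ‖∫ x, (fourier n x : ℂ) ∂μ‖ ≤ C * δ ^ (1 - ε) := by
  obtain ⟨A, hA⟩ := exists_nat_gt (1 / ε)
  obtain ⟨C, hC, h⟩ := small_of_mdev (b := 3) le_rfl A
  refine ⟨C, hC, fun μ h1μ h2μ δ h0 h1 n hn hall => ?_⟩
  have hμ : Inv ∅ μ := ⟨h1μ, h2μ, fun n hn => absurd hn (Set.notMem_empty n)⟩
  have hν := hμ.map hn
  have := hν.1
  have hns : NullSingletonClass (μ.map fun x => n • x) := ⟨hν.2.1⟩
  rw [← integral_map_one]
  have hmass : ∀ j : ℤ, mass (μ.map fun x => n • x) j 0 (1 / 3) =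
      μ.real {x : UnitAddCircle | (j * n) • x ∈ arc 0 (1 / 3)} := by
    intro j
    unfold mass
    have hms : MeasurableSet {x : UnitAddCircle | j • x ∈ arc 0 (1 / 3)} :=
      (measurable_zsmul_circle j) (measurableSet_arc (s := 0) (t := 1 / 3) le_rfl (by norm_num))
    rw [map_measureReal_apply (measurable_zsmul_circle n) hms]
    congr 1
    ext x
    simp only [Set.mem_preimage, Set.mem_setOf_eq, mul_smul]
  have h2 := h (μ.map fun x => n • x) δ h0 h1 (fun j hj => ?_)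
  · refine h2.trans (mul_le_mul_of_nonneg_left ?_ hC.le)
    apply Real.rpow_le_rpow_of_exponent_ge h0 h1
    have h3 : 1 / ((A : ℝ) + 1) ≤ ε := by
      rw [div_le_iff₀ (by positivity)]
      rw [div_lt_iff₀ hε] at hA
      nlinarith
    linarith
  · have hj0 : (j : ℤ) ≠ 0 := by
      have : j ≠ 0 := by omega
      exact_mod_cast this
    apply mdev_three _ hj
    · rw [hmass]
      exact hall _ hj0
    · rw [hmass]
      exact hall _ (neg_ne_zero.2 hj0)

end Pool.Agent.Run7.h776.MM
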