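import Pool.Agent.Run7.h776.MM.Meas

/-! # One interval -/

set_option autoImplicit false

namespace Pool.Agent.Run7.h776.MM

open MeasureTheory Finset
open Pool.Agent.Run7.h776.MS
open scoped Real

lemma arc_union {s t u : ℝ} (hst : s ≤ t) (htu : t ≤ u) : arc s t ∪ arc t u = arc s u := by
  unfold arc
  rw [← Set.image_union, Set.Ico_union_Ico_eq_Ico hst htu]

lemma arc_disjoint {s t u v : ℝ} (hs : 0 ≤ s) (htu : t ≤ u) (hv : v ≤ 1) :
    Disjoint (arc s t) (arc u v) := by
  rw [Set.disjoint_left]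
  rintro x ⟨y, ⟨h1, h2⟩, rfl⟩ hx
  have h3 : (y : UnitAddCircle) ∈ arc s t := ⟨y, ⟨h1, h2⟩, rfl⟩
  rcases lt_or_ge u v with huv | huv
  · rw [mem_arc hs (by linarith)] at h3
    have hx' := hx
    rw [mem_arc (by linarith) hv] at hx'
    linarith [h3.2, hx'.1]
  · obtain ⟨z, ⟨h4, h5⟩, _⟩ := hx
    linarith

lemma arc_univ : arc 0 1 = Set.univ := by
  rw [Set.eq_univ_iff_forall]
  intro x
  rw [← rep_coe x, mem_arc le_rfl le_rfl]
  exact ⟨Int.fract_nonneg _, Int.fract_lt_one _⟩

lemma measurableSet_arc {s t : ℝ} (hs : 0 ≤ s) (ht : t ≤ 1) : MeasurableSet (arc s t) := by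
  have : arc s t = {x | s ≤ Int.fract (rep x)} ∩ {x | Int.fract (rep x) < t} := by
    ext x
    conv_lhs => rw [← rep_coe x]
    exact mem_arc hs ht _
  rw [this]
  have hf : Measurable fun x : UnitAddCircle => Int.fract (rep x) :=
    measurable_fract.comp measurable_rep
  exact (measurableSet_le measurable_const hf).inter (measurableSet_lt hf measurable_const)

lemma measurable_zsmul_circle (m : ℤ) : Measurable fun x : UnitAddCircle => m • x :=
  (continuous_zsmul m).measurable

/-- the mass which the image of `μ` under `x ↦ m x` gives to `[s, t)` -/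
noncomputable def mass (μ : Measure UnitAddCircle) (m : ℤ) (s t : ℝ) : ℝ :=
  μ.real {x : UnitAddCircle | m • x ∈ arc s t}

lemma mass_map (μ : Measure UnitAddCircle) [IsProbabilityMeasure μ] (m : ℤ) {s t : ℝ} (hs : 0 ≤ s)
    (ht : t ≤ 1) : (μ.map fun x => m • x).real (arc s t) = mass μ m s t := by
  unfold mass
  rw [map_measureReal_apply (measurable_zsmul_circle m) (measurableSet_arc hs ht)]
  rfl

lemma mass_add (μ : Measure UnitAddCircle) [IsProbabilityMeasure μ] (m : ℤ) {s t u : ℝ}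
    (hs : 0 ≤ s) (hst : s ≤ t) (htu : t ≤ u) (hu : u ≤ 1) :
    mass μ m s t + mass μ m t u = mass μ m s u := by
  unfold mass
  rw [← measureReal_union]
  · congr 1
    ext x
    simp only [Set.mem_union, Set.mem_ofPred_eq]
    rw [← arc_union hst htu]
    rfl
  · rw [Set.disjoint_left]
    intro x h1 h2
    exact Set.disjoint_left.1 (arc_disjoint hs le_rfl hu) h1 h2
  · exact (measurable_zsmul_circle m) (measurableSet_arc (by linarith) hu)

lemma mass_univ (μ : Measure UnitAddCircle) [IsProbabilityMeasure μ] (m : ℤ) : mass μ m 0 1 = 1 := by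
  unfold mass
  rw [arc_univ]
  simp

/-- fibres are null sets -/
lemma fibre_null (μ : Measure UnitAddCircle) [NullSingletonClass μ] {m : ℤ} (hm : m ≠ 0)
    (c : UnitAddCircle) : μ {x : UnitAddCircle | m • x = c} = 0 := by
  apply Set.Finite.measure_zero
  rcases Set.eq_empty_or_nonempty {x : UnitAddCircle | m • x = c} with h | ⟨x₀, hx₀⟩
  · rw [h]
    exact Set.finite_empty
  · have hfin : {u : UnitAddCircle | m.natAbs • u = 0}.Finite :=
      AddCircle.finite_torsion (1 : ℝ) (Int.natAbs_pos.2 hm)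
    refine (hfin.image fun u => x₀ + u).subset ?_
    intro x hx
    refine ⟨x - x₀, ?_, by simp⟩
    have h1 : m • (x - x₀) = 0 := by
      rw [smul_sub]
      rw [show m • x = c from hx, show m • x₀ = c from hx₀, sub_self]
    show m.natAbs • (x - x₀) = 0
    rcases Int.natAbs_eq m with h2 | h2
    · rw [h2, natCast_zsmul] at h1
      exact h1
    · rw [h2, neg_smul, natCast_zsmul, neg_eq_zero] at h1
      exact h1

/-- reflection -/
lemma mass_neg (μ : Measure UnitAddCircle) [IsProbabilityMeasure μ] [NullSingletonClass μ] {m : ℤ}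
    (hm : m ≠ 0) {t : ℝ} (_ht0 : 0 < t) (ht : t ≤ 1) :
    mass μ (-m) 0 t = mass μ m (1 - t) 1 := by
  unfold mass
  apply measureReal_congr
  have h1 : ∀ᵐ x ∂μ, m • x ≠ 0 ∧ m • x ≠ ((1 - t : ℝ) : UnitAddCircle) := by
    have a := fibre_null μ hm 0
    have b := fibre_null μ hm ((1 - t : ℝ) : UnitAddCircle)
    rw [Filter.eventually_and]
    constructor
    · rw [ae_iff]
      simpa using a
    · rw [ae_iff]
      simpa using b
  filter_upwards [h1] with x hx
  obtain ⟨hx0, hx1⟩ := hx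
  have hy : ((rep (m • x) : ℝ) : UnitAddCircle) = m • x := rep_coe _
  set y := Int.fract (rep (m • x)) with hy'
  have hyc : (y : UnitAddCircle) = m • x := by rw [hy', coe_fract, hy]
  have y0 : 0 ≤ y := Int.fract_nonneg _
  have y1 : y < 1 := Int.fract_lt_one _
  have yne : y ≠ 0 := by
    intro h
    apply hx0
    rw [← hyc, h]
    simp
  have yne' : y ≠ 1 - t := by
    intro h
    apply hx1
    rw [← hyc, h]
  have ypos : 0 < y := lt_of_le_of_ne y0 (Ne.symm yne)
  apply propext
  show (-m) • x ∈ arc 0 t ↔ m • x ∈ arc (1 - t) 1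
  have e1 : (-m) • x = ((1 - y : ℝ) : UnitAddCircle) := by
    rw [neg_smul, ← hyc, AddCircle.coe_sub]
    have : ((1 : ℝ) : UnitAddCircle) = 0 := AddCircle.coe_period 1
    rw [this, zero_sub]
  rw [e1, ← hyc, mem_arc le_rfl ht, mem_arc (by linarith) le_rfl]
  have f1 : Int.fract (1 - y) = 1 - y := Int.fract_eq_self.2 ⟨by linarith, by linarith⟩
  have f2 : Int.fract y = y := Int.fract_eq_self.2 ⟨y0, y1⟩
  rw [f1, f2]
  constructor
  · rintro ⟨_, h⟩
    exact ⟨by linarith, y1⟩
  · rintro ⟨h, _⟩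
    refine ⟨by linarith, ?_⟩
    rcases lt_or_eq_of_le h with h2 | h2
    · linarith
    · exact absurd h2.symm yne'

lemma mdev_eq (b : ℕ) (μ : Measure UnitAddCircle) (j : ℕ) :
    mdev b μ j = ∑ d ∈ range b, |mass μ j ((d : ℝ) / b) (((d : ℝ) + 1) / b) - 1 / b| := by
  unfold mdev mass
  simp only [natCast_zsmul]

lemma mdev_three (μ : Measure UnitAddCircle) [IsProbabilityMeasure μ] [NullSingletonClass μ] {j : ℕ}
    (hj : 1 ≤ j) {δ : ℝ} (h1 : |mass μ j 0 (1 / 3) - 1 / 3| ≤ δ)
    (h2 : |mass μ (-j) 0 (1 / 3) - 1 / 3| ≤ δ) : mdev 3 μ j ≤ 4 * δ := by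
  rw [mdev_eq]
  have hj0 : (j : ℤ) ≠ 0 := by
    have : j ≠ 0 := by omega
    exact_mod_cast this
  rw [mass_neg μ hj0 (by norm_num) (by norm_num)] at h2
  have a1 := mass_add μ (j : ℤ) (s := 0) (t := 1 / 3) (u := 2 / 3) le_rfl (by norm_num) (by norm_num)
    (by norm_num)
  have a2 := mass_add μ (j : ℤ) (s := 0) (t := 2 / 3) (u := 1) le_rfl (by norm_num) (by norm_num)
    le_rfl
  rw [mass_univ] at a2
  simp only [sum_range_succ, sum_range_zero, zero_add]
  push_cast
  norm_num at h1 h2 a1 a2 ⊢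
  rw [abs_le] at h1 h2
  have h3 : |mass μ j (1 / 3) (2 / 3) - 1 / 3| ≤ 2 * δ := by
    rw [abs_le]
    constructor <;> linarith [h1.1, h1.2, h2.1, h2.2]
  have h1' := abs_le.2 h1
  have h2' := abs_le.2 h2
  linarith

lemma mdev_four (μ : Measure UnitAddCircle) [IsProbabilityMeasure μ] [NullSingletonClass μ]
    (h2μ : MeasurePreserving (fun x : UnitAddCircle => (2 : ℕ) • x) μ μ) {j : ℕ}
    (hj : 1 ≤ j) {δ : ℝ} (h1 : |mass μ j 0 (1 / 4) - 1 / 4| ≤ δ)
    (h2 : |mass μ (-j) 0 (1 / 4) - 1 / 4| ≤ δ) : mdev 4 μ j ≤ 4 * δ := by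
  rw [mdev_eq]
  have hj0 : (j : ℤ) ≠ 0 := by
    have : j ≠ 0 := by omega
    exact_mod_cast this
  rw [mass_neg μ hj0 (by norm_num) (by norm_num)] at h2
  have a1 := mass_add μ (j : ℤ) (s := 0) (t := 1 / 4) (u := 1 / 2) le_rfl (by norm_num) (by norm_num)
    (by norm_num)
  have a2 := mass_add μ (j : ℤ) (s := 0) (t := 1 / 2) (u := 3 / 4) le_rfl (by norm_num) (by norm_num)
    (by norm_num)
  have a3 := mass_add μ (j : ℤ) (s := 0) (t := 3 / 4) (u := 1) le_rfl (by norm_num) (by norm_num)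
    le_rfl
  rw [mass_univ] at a3
  -- invariance under doubling
  have key : mass μ j 0 (1 / 2) = mass μ j 0 (1 / 4) + mass μ j (1 / 2) (3 / 4) := by
    have e0 : mass μ j 0 (1 / 2) =
        μ.real ((fun x : UnitAddCircle => (2 : ℕ) • x) ⁻¹'
          {x : UnitAddCircle | (j : ℤ) • x ∈ arc 0 (1 / 2)}) := by
      unfold mass
      rw [measureReal_def, measureReal_def, h2μ.measure_preimage]
      exact ((measurable_zsmul_circle j) (measurableSet_arc le_rfl (by norm_num))).nullMeasurableSet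
    rw [e0]
    unfold mass
    rw [← measureReal_union]
    · congr 1
      ext x
      show (j : ℤ) • ((2 : ℕ) • x) ∈ arc 0 (1 / 2) ↔
        (j : ℤ) • x ∈ arc 0 (1 / 4) ∨ (j : ℤ) • x ∈ arc (1 / 2) (3 / 4)
      have e1 : (j : ℤ) • ((2 : ℕ) • x) = (2 : ℕ) • ((j : ℤ) • x) := smul_comm _ _ _
      rw [e1, ← rep_coe ((j : ℤ) • x), ← AddCircle.coe_nsmul, nsmul_eq_mul]
      set y := rep ((j : ℤ) • x)
      rw [mem_arc le_rfl (by norm_num), mem_arc le_rfl (by norm_num),
        mem_arc (by norm_num) (by norm_num)]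
      have f0 := Int.fract_nonneg y
      have f1 := Int.fract_lt_one y
      have hy : ((2 : ℕ) : ℝ) * y = 2 * Int.fract y + ((2 * ⌊y⌋ : ℤ) : ℝ) := by
        have := Int.fract_add_floor y
        push_cast
        linarith
      rw [hy, Int.fract_add_intCast]
      rcases lt_or_ge (Int.fract y) (1 / 2) with h | h
      · have f2 : Int.fract (2 * Int.fract y) = 2 * Int.fract y :=
          Int.fract_eq_self.2 ⟨by linarith, by linarith⟩
        rw [f2]
        constructor
        · rintro ⟨c1, c2⟩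
          exact Or.inl ⟨f0, by linarith⟩
        · rintro (⟨c1, c2⟩ | ⟨c1, c2⟩)
          · exact ⟨by linarith, by linarith⟩
          · linarith
      · have f2 : Int.fract (2 * Int.fract y) = 2 * Int.fract y - 1 := by
          have : 2 * Int.fract y = (2 * Int.fract y - 1) + ((1 : ℤ) : ℝ) := by push_cast; ring
          rw [this, Int.fract_add_intCast]
          rw [Int.fract_eq_self.2 ⟨by linarith, by linarith⟩]
          push_cast
          ring
        rw [f2]
        constructor
        · rintro ⟨c1, c2⟩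
          exact Or.inr ⟨h, by linarith⟩
        · rintro (⟨c1, c2⟩ | ⟨c1, c2⟩)
          · linarith
          · exact ⟨by linarith, by linarith⟩
    · rw [Set.disjoint_left]
      intro x c1 c2
      exact Set.disjoint_left.1 (arc_disjoint le_rfl (by norm_num) (by norm_num)) c1 c2
    · exact (measurable_zsmul_circle j) (measurableSet_arc (by norm_num) (by norm_num))
  simp only [sum_range_succ, sum_range_zero, zero_add]
  push_cast
  norm_num at h1 h2 a1 a2 a3 key ⊢
  rw [abs_le] at h1 h2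
  have h3 : |mass μ j (1 / 4) (1 / 2) - 1 / 4| ≤ δ := by
    rw [abs_le]
    constructor <;> linarith [h1.1, h1.2, h2.1, h2.2]
  have h4 : |mass μ j (1 / 2) (3 / 4) - 1 / 4| ≤ δ := by
    rw [abs_le]
    constructor <;> linarith [h1.1, h1.2, h2.1, h2.2]
  have h1' := abs_le.2 h1
  have h2' := abs_le.2 h2
  linarith

end Pool.Agent.Run7.h776.MM
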